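import Pool.Agent.Lib.MP_abcfcd_nt.L.Prod
import Pool.Agent.Lib.MP_abcfcd_nt.N.Psi

/-!
# The compact group `L` and its character

PROOF. `mul_JJ`: with `g = P + Q √-7`, `P - 1` divisible by seven: `g g' = (P P' - 7 Q Q') +
(P Q' + Q P') √-7`. `inv_JJ`: `g⁻¹ = J gᴴ J` has the entries of `g` conjugated at other places.
`trB_mul`: `trB (g g') - trB g - trB g' = tr (B ((P - 1) Q' + Q (P' - 1)))` has norm at most `1/7`.
`trB_int`: `‖trB g‖ ≤ 1` for `g ∈ KZ p7`. So `chi (l l') = chi l chi l'` by `psi_at7` (a change of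
the argument of `psi ∘ at7` by an integral element does not matter). `chi_pow`: `7 * (trB / 7)` is
integral. `exists_gap`: a seventh root of unity different from `1` has distance at least a constant
from
`1`: finitely many. `isCompact_LL`: the set of elements of `U7 AQ` with finite entries integral and
trivial component at infinity is the preimage, under the closed embedding `mat`, of the compact set
`{1} × ∏ ℤ_p` in every coordinate (`E7.homeo`; the compact set `{x : Af | ∀ p, ‖x p‖ ≤ 1}` is the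
image of
`∏ ℤ_[p]` under the continuous `RestrictedProduct.structureMap`); the condition at seven is closed.
`isOpen_fin`: `{g | finP g ∈ LL}` is open: the conditions are open conditions on the finite entries
(`RestrictedProduct.isOpen_forall_mem`, closed balls in `ℚ_[p]` are open). `chi_continuousOn`:
`g ↦ trB` is continuous and `psi ∘ at7` is locally constant.
-/

set_option autoImplicit false

open Matrix MeasureTheory Topology
open scoped ENNReal NNReal ComplexConjugate RestrictedProduct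

namespace Pool.Agent.MPabcfcd

/-- The integral elements of `ℚ_p[√-7]`. -/
private noncomputable def ll_int (p : Nat.Primes) : Subring (E7 ℚ_[p]) where
  carrier := {z | ‖z.re‖ ≤ 1 ∧ ‖z.im‖ ≤ 1}
  mul_mem' {x y} hx hy := by
    have h7 : ‖(7 : ℚ_[p])‖ ≤ 1 := by exact_mod_cast Padic.norm_int_le_one (p := p) 7
    have m : ∀ {a b : ℚ_[p]}, ‖a‖ ≤ 1 → ‖b‖ ≤ 1 → ‖a * b‖ ≤ 1 := fun ha hb =>
      (PadicInt.subring p).mul_mem ha hb
    have s : ∀ {a b : ℚ_[p]}, ‖a‖ ≤ 1 → ‖b‖ ≤ 1 → ‖a + b‖ ≤ 1 := fun ha hb =>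
      (PadicInt.subring p).add_mem ha hb
    refine ⟨?_, ?_⟩
    · rw [QuadraticAlgebra.re_mul]
      refine s (m hx.1 hy.1) (m (m ?_ hx.2) hy.2)
      rw [norm_neg]
      exact h7
    · rw [QuadraticAlgebra.im_mul]
      refine s (s (m hx.1 hy.2) (m hx.2 hy.1)) (m (m ?_ hx.2) hy.2)
      rw [norm_zero]
      exact zero_le_one
  one_mem' := by
    refine ⟨?_, ?_⟩
    · rw [QuadraticAlgebra.re_one]
      exact norm_one.le
    · rw [QuadraticAlgebra.im_one, norm_zero]
      exact zero_le_one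
  add_mem' {x y} hx hy := by
    refine ⟨?_, ?_⟩
    · rw [QuadraticAlgebra.re_add]
      exact (PadicInt.subring p).add_mem hx.1 hy.1
    · rw [QuadraticAlgebra.im_add]
      exact (PadicInt.subring p).add_mem hx.2 hy.2
  zero_mem' := by
    refine ⟨?_, ?_⟩
    · rw [QuadraticAlgebra.re_zero, norm_zero]
      exact zero_le_one
    · rw [QuadraticAlgebra.im_zero, norm_zero]
      exact zero_le_one
  neg_mem' {x} hx := by
    refine ⟨?_, ?_⟩
    · rw [QuadraticAlgebra.re_neg, norm_neg]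
      exact hx.1
    · rw [QuadraticAlgebra.im_neg, norm_neg]
      exact hx.2

private theorem ll_mem {p : Nat.Primes} {g : U7 ℚ_[p]} :
    g ∈ KZ p ↔ ∀ i j, g.mat i j ∈ ll_int p := Iff.rfl

private theorem ll_inv {R : Type} [CommRing R] (g : U7 R) (i j : Fin 7) :
    (g⁻¹).mat i j = star (g.mat j.rev i.rev) := by
  rw [U7.mat_inv, Matrix.mul_apply, Finset.sum_eq_single j.rev]
  · rw [Matrix.mul_apply, Finset.sum_eq_single i.rev]
    · simp [J7, Matrix.conjTranspose_apply]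
    · intro b _ hb
      simp [J7, hb]
    · intro h
      exact absurd (Finset.mem_univ _) h
  · intro b _ hb
    have h : ¬ j = b.rev := fun h => hb (by rw [h, Fin.rev_rev])
    simp [J7, h]
  · intro h
    exact absurd (Finset.mem_univ _) h

private theorem ll_star_mem {p : Nat.Primes} {z : E7 ℚ_[p]} (hz : z ∈ ll_int p) :
    star z ∈ ll_int p := by
  refine ⟨?_, ?_⟩
  · rw [QuadraticAlgebra.re_star, zero_mul, add_zero]
    exact hz.1
  · rw [QuadraticAlgebra.im_star, norm_neg]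
    exact hz.2

theorem one_mem_KZ (p : Nat.Primes) : (1 : U7 ℚ_[p]) ∈ KZ p := by
  rw [ll_mem]
  intro i j
  rw [U7.mat_one]
  by_cases h : i = j
  · subst h
    rw [Matrix.one_apply_eq]
    exact one_mem _
  · rw [Matrix.one_apply_ne h]
    exact zero_mem _

theorem mul_mem_KZ {p : Nat.Primes} {g h : U7 ℚ_[p]} (hg : g ∈ KZ p) (hh : h ∈ KZ p) :
    g * h ∈ KZ p := by
  rw [ll_mem] at hg hh ⊢
  intro i j
  rw [U7.mat_mul, Matrix.mul_apply]
  exact sum_mem fun k _ => mul_mem (hg i k) (hh k j)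

theorem inv_mem_KZ {p : Nat.Primes} {g : U7 ℚ_[p]} (hg : g ∈ KZ p) : g⁻¹ ∈ KZ p := by
  rw [ll_mem] at hg ⊢
  intro i j
  rw [ll_inv]
  exact ll_star_mem (hg _ _)

/-- The multiples of `√-7` in `ℤ_7[√-7]`. -/
private noncomputable def ll_id : AddSubgroup (E7 ℚ_[p7]) where
  carrier := {z | ‖z.re‖ ≤ 1 / 7 ∧ ‖z.im‖ ≤ 1}
  add_mem' {x y} hx hy := by
    refine ⟨?_, ?_⟩
    · rw [QuadraticAlgebra.re_add]
      exact (Padic.nonarchimedean _ _).trans (max_le hx.1 hy.1)
    · rw [QuadraticAlgebra.im_add]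
      exact (Padic.nonarchimedean _ _).trans (max_le hx.2 hy.2)
  zero_mem' := by
    refine ⟨?_, ?_⟩
    · rw [QuadraticAlgebra.re_zero, norm_zero]
      norm_num
    · rw [QuadraticAlgebra.im_zero, norm_zero]
      exact zero_le_one
  neg_mem' {x} hx := by
    refine ⟨?_, ?_⟩
    · rw [QuadraticAlgebra.re_neg, norm_neg]
      exact hx.1
    · rw [QuadraticAlgebra.im_neg, norm_neg]
      exact hx.2

private theorem ll_norm7 : ‖(7 : ℚ_[p7])‖ = 1 / 7 := by
  have h := Padic.norm_p (p := (p7 : ℕ))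
  have h2 : ((p7 : ℕ) : ℚ_[p7]) = 7 := by
    change ((7 : ℕ) : ℚ_[p7]) = 7
    norm_num
  rw [h2] at h
  rw [h]
  change ((7 : ℕ) : ℝ)⁻¹ = 1 / 7
  norm_num

private theorem ll_m {a b : ℚ_[p7]} {s t : ℝ} (ha : ‖a‖ ≤ s) (hb : ‖b‖ ≤ t) :
    ‖a * b‖ ≤ s * t := by
  rw [norm_mul]
  exact mul_le_mul ha hb (norm_nonneg _) ((norm_nonneg _).trans ha)

private theorem ll_s {a b : ℚ_[p7]} {s : ℝ} (ha : ‖a‖ ≤ s) (hb : ‖b‖ ≤ s) : ‖a + b‖ ≤ s :=
  (Padic.nonarchimedean _ _).trans (max_le ha hb)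

private theorem ll_id_mul {x y : E7 ℚ_[p7]} (hx : x ∈ ll_id) (hy : y ∈ ll_id) :
    x * y ∈ ll_id ∧ ‖(x * y).im‖ ≤ 1 / 7 := by
  have h1 : ‖(x * y).im‖ ≤ 1 / 7 := by
    rw [QuadraticAlgebra.im_mul, zero_mul, zero_mul, add_zero]
    refine ll_s ((ll_m hx.1 hy.2).trans ?_) ((ll_m hx.2 hy.1).trans ?_) <;> norm_num
  refine ⟨⟨?_, h1.trans (by norm_num)⟩, h1⟩
  rw [QuadraticAlgebra.re_mul]
  refine ll_s ((ll_m hx.1 hy.1).trans (by norm_num)) ?_
  refine (ll_m (s := 1 / 7) (t := 1) ?_ hy.2).trans (by norm_num)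
  refine (ll_m (s := 1 / 7) (t := 1) ?_ hx.2).trans (by norm_num)
  rw [norm_neg]
  exact ll_norm7.le

private theorem ll_JJ {g : U7 ℚ_[p7]} : g ∈ JJ ↔ ∀ i j, (g.mat - 1) i j ∈ ll_id := by
  have h1 : ∀ i j : Fin 7, ((g.mat - 1) i j).im = (g.mat i j).im := by
    intro i j
    rw [Matrix.sub_apply, QuadraticAlgebra.im_sub]
    by_cases h : i = j
    · subst h
      rw [Matrix.one_apply_eq, QuadraticAlgebra.im_one, sub_zero]
    · rw [Matrix.one_apply_ne h, QuadraticAlgebra.im_zero, sub_zero]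
  constructor
  · rintro ⟨h2, h3⟩ i j
    exact ⟨h3 i j, by rw [h1]; exact (h2 i j).2⟩
  · intro h
    refine ⟨fun i j => ⟨?_, ?_⟩, fun i j => (h i j).1⟩
    · have h2 : g.mat i j = (g.mat - 1) i j + (1 : M7 (E7 ℚ_[p7])) i j := by
        rw [Matrix.sub_apply, sub_add_cancel]
      rw [h2, QuadraticAlgebra.re_add]
      refine ll_s ((h i j).1.trans (by norm_num)) ?_
      have h3 := (one_mem_KZ p7 i j).1
      rw [U7.mat_one] at h3
      exact h3
    · rw [← h1]
      exact (h i j).2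

theorem one_mem_JJ : (1 : U7 ℚ_[p7]) ∈ JJ := by
  rw [ll_JJ]
  intro i j
  rw [U7.mat_one, sub_self]
  exact ll_id.zero_mem

private theorem ll_mul_sub (g h : U7 ℚ_[p7]) : (g * h).mat - 1 =
    (g.mat - 1) * (h.mat - 1) + (g.mat - 1) + (h.mat - 1) := by
  rw [U7.mat_mul]
  noncomm_ring

theorem mul_mem_JJ {g h : U7 ℚ_[p7]} (hg : g ∈ JJ) (hh : h ∈ JJ) : g * h ∈ JJ := by
  rw [ll_JJ] at hg hh ⊢
  intro i j
  rw [ll_mul_sub, Matrix.add_apply, Matrix.add_apply, Matrix.mul_apply]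
  exact ll_id.add_mem (ll_id.add_mem
    (sum_mem fun k _ => (ll_id_mul (hg i k) (hh k j)).1) (hg i j)) (hh i j)

theorem inv_mem_JJ {g : U7 ℚ_[p7]} (hg : g ∈ JJ) : g⁻¹ ∈ JJ := by
  rw [ll_JJ] at hg ⊢
  intro i j
  have h1 : ((g⁻¹).mat - 1) i j = star ((g.mat - 1) j.rev i.rev) := by
    rw [Matrix.sub_apply, Matrix.sub_apply, ll_inv, star_sub]
    congr 1
    by_cases h : i = j
    · subst h
      rw [Matrix.one_apply_eq, Matrix.one_apply_eq, star_one]
    · rw [Matrix.one_apply_ne h, Matrix.one_apply_ne, star_zero]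
      intro h2
      exact h (Fin.rev_injective h2).symm
  rw [h1]
  refine ⟨?_, ?_⟩
  · rw [QuadraticAlgebra.re_star, zero_mul, add_zero]
    exact (hg _ _).1
  · rw [QuadraticAlgebra.im_star, norm_neg]
    exact (hg _ _).2

private theorem ll_B (i j : Fin 7) : ‖((Bm i j : ℤ) : ℚ_[p7])‖ ≤ 1 :=
  Padic.norm_int_le_one _

private theorem ll_sum {s : ℝ} (hs : 0 ≤ s) {f : Fin 7 → ℚ_[p7]} (h : ∀ i, ‖f i‖ ≤ s) :
    ‖∑ i, f i‖ ≤ s :=
  IsUltrametricDist.norm_sum_le_of_forall_le_of_nonneg hs fun i _ => h i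

theorem norm_trB {g : U7 ℚ_[p7]} (hg : g ∈ KZ p7) : ‖trB g‖ ≤ 1 := by
  refine ll_sum zero_le_one fun i => ll_sum zero_le_one fun j => ?_
  exact (ll_m (ll_B i j) (hg j i).2).trans (by norm_num)

theorem trB_mul {g h : U7 ℚ_[p7]} (hg : g ∈ JJ) (hh : h ∈ JJ) :
    ‖trB (g * h) - trB g - trB h‖ ≤ 1 / 7 := by
  rw [ll_JJ] at hg hh
  have h1 : trB (g * h) - trB g - trB h =
      ∑ i, ∑ j, (Bm i j : ℚ_[p7]) * (((g.mat - 1) * (h.mat - 1)) j i).im := by
    unfold trB
    rw [← Finset.sum_sub_distrib, ← Finset.sum_sub_distrib]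
    refine Finset.sum_congr rfl fun i _ => ?_
    rw [← Finset.sum_sub_distrib, ← Finset.sum_sub_distrib]
    refine Finset.sum_congr rfl fun j _ => ?_
    have h2 : (g * h).mat = (g.mat - 1) * (h.mat - 1) + (g.mat + h.mat - 1) := by
      rw [U7.mat_mul]
      noncomm_ring
    have h3 : ((g * h).mat j i).im = (((g.mat - 1) * (h.mat - 1)) j i).im +
        ((g.mat j i).im + (h.mat j i).im) := by
      rw [h2, Matrix.add_apply, QuadraticAlgebra.im_add, Matrix.sub_apply, Matrix.add_apply,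
        QuadraticAlgebra.im_sub, QuadraticAlgebra.im_add]
      have h4 : ((1 : M7 (E7 ℚ_[p7])) j i).im = 0 := by
        by_cases h : j = i
        · subst h
          rw [Matrix.one_apply_eq, QuadraticAlgebra.im_one]
        · rw [Matrix.one_apply_ne h, QuadraticAlgebra.im_zero]
      rw [h4, sub_zero]
    rw [h3]
    ring
  rw [h1]
  refine ll_sum (by norm_num) fun i => ll_sum (by norm_num) fun j => ?_
  have h2 : ‖(((g.mat - 1) * (h.mat - 1)) j i).im‖ ≤ 1 / 7 := by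
    have h3 : (((g.mat - 1) * (h.mat - 1)) j i).im =
        ∑ k, ((g.mat - 1) j k * (h.mat - 1) k i).im := by
      rw [Matrix.mul_apply]
      exact map_sum (AddMonoidHom.mk' (fun z : E7 ℚ_[p7] => z.im)
        fun x y => QuadraticAlgebra.im_add x y)
        (fun k => (g.mat - 1) j k * (h.mat - 1) k i) Finset.univ
    rw [h3]
    exact ll_sum (by norm_num) fun k => (ll_id_mul (hg j k) (hh k i)).2
  exact (ll_m (ll_B i j) h2).trans (by norm_num)

theorem one_mem_LL : (1 : U7 AQ) ∈ LL := by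
  refine ⟨map_one _, fun p => ?_, ?_⟩
  · rw [map_one]
    exact one_mem_KZ p
  · rw [map_one]
    exact one_mem_JJ

theorem mul_mem_LL {g h : U7 AQ} (hg : g ∈ LL) (hh : h ∈ LL) : g * h ∈ LL := by
  refine ⟨?_, fun p => ?_, ?_⟩
  · rw [map_mul, hg.1, hh.1, mul_one]
  · rw [map_mul]
    exact mul_mem_KZ (hg.2.1 p) (hh.2.1 p)
  · rw [map_mul]
    exact mul_mem_JJ hg.2.2 hh.2.2

theorem inv_mem_LL {g : U7 AQ} (hg : g ∈ LL) : g⁻¹ ∈ LL := by
  refine ⟨?_, fun p => ?_, ?_⟩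
  · rw [map_inv, hg.1, inv_one]
  · rw [map_inv]
    exact inv_mem_KZ (hg.2.1 p)
  · rw [map_inv]
    exact inv_mem_JJ hg.2.2

private theorem ll_norm_div {x : ℚ_[p7]} {s : ℝ} (h : ‖x‖ ≤ s) : ‖x / 7‖ ≤ s * 7 := by
  rw [norm_div, ll_norm7, div_div_eq_mul_div, div_one]
  exact mul_le_mul_of_nonneg_right h (by norm_num)

theorem chi_one : chi 1 = 1 := by
  unfold chi
  rw [map_one]
  have h : trB (1 : U7 ℚ_[p7]) = 0 := by
    unfold trB
    refine Finset.sum_eq_zero fun i _ => Finset.sum_eq_zero fun j _ => ?_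
    have h4 : ((1 : U7 ℚ_[p7]).mat j i).im = 0 := by
      rw [U7.mat_one]
      by_cases h : j = i
      · subst h
        rw [Matrix.one_apply_eq, QuadraticAlgebra.im_one]
      · rw [Matrix.one_apply_ne h, QuadraticAlgebra.im_zero]
    rw [h4, mul_zero]
  rw [h, psi_at7, neg_zero, zero_div, norm_zero]
  exact zero_le_one

theorem chi_mul {g h : U7 AQ} (hg : g ∈ LL) (hh : h ∈ LL) : chi (g * h) = chi g * chi h := by
  unfold chi
  rw [map_mul]
  set a := U7.map (evp p7) g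
  set b := U7.map (evp p7) h
  have h1 := trB_mul hg.2.2 hh.2.2
  have h2 : -(trB (a * b)) / 7 = -(trB (a * b) - trB a - trB b) / 7 +
      (-(trB a) / 7 + -(trB b) / 7) := by ring
  rw [h2, at7_add, psi_add, at7_add, psi_add]
  have h3 : psi (at7 (-(trB (a * b) - trB a - trB b) / 7)) = 1 := by
    rw [psi_at7]
    refine (ll_norm_div (s := 1 / 7) ?_).trans (by norm_num)
    rw [norm_neg]
    exact h1
  rw [h3, one_mul]

theorem chi_inv {g : U7 AQ} (hg : g ∈ LL) : chi g⁻¹ = (chi g)⁻¹ := by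
  have h1 := chi_mul (inv_mem_LL hg) hg
  rw [inv_mul_cancel, chi_one] at h1
  exact eq_inv_of_mul_eq_one_left h1.symm

private theorem ll_pow (x : ℚ_[p7]) (n : ℕ) : psi (at7 x) ^ n = psi (at7 (n * x)) := by
  induction n with
  | zero =>
    rw [pow_zero, Nat.cast_zero, zero_mul]
    symm
    rw [psi_at7, norm_zero]
    exact zero_le_one
  | succ n ih =>
    rw [pow_succ, ih, Nat.cast_succ, add_mul, one_mul, at7_add, psi_add]

theorem chi_pow {g : U7 AQ} (hg : g ∈ LL) : chi g ^ 7 = 1 := by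
  unfold chi
  rw [ll_pow, psi_at7]
  have h : ((7 : ℕ) : ℚ_[p7]) * (-(trB (U7.map (evp p7) g)) / 7) =
      -(trB (U7.map (evp p7) g)) := by
    have h7 : (7 : ℚ_[p7]) ≠ 0 := by
      intro h
      have h2 := ll_norm7
      rw [h, norm_zero] at h2
      norm_num at h2
    rw [Nat.cast_ofNat]
    field_simp
  rw [h, norm_neg]
  exact norm_trB (hg.2.1 p7)

theorem exists_gap : ∃ c : ℝ, 0 < c ∧ ∀ g ∈ LL, chi g ≠ 1 → c ≤ ‖(chi g : ℂ) - 1‖ := by
  classical
  set s : Finset ℂ := (Polynomial.nthRootsFinset 7 (1 : ℂ)).erase 1 with hs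
  have hmem : ∀ g ∈ LL, chi g ≠ 1 → (chi g : ℂ) ∈ s := by
    intro g hg h1
    rw [hs, Finset.mem_erase, Polynomial.mem_nthRootsFinset (by norm_num)]
    refine ⟨fun h => h1 ?_, ?_⟩
    · exact Subtype.ext h
    · have h2 := congrArg (fun z : Circle => (z : ℂ)) (chi_pow hg)
      simpa using h2
  rcases s.eq_empty_or_nonempty with h | h
  · refine ⟨1, one_pos, fun g hg h1 => ?_⟩
    have h2 := hmem g hg h1
    rw [h] at h2
    exact absurd h2 (Finset.notMem_empty _)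
  · obtain ⟨m, hm, hmin⟩ := s.exists_min_image (fun z => ‖z - 1‖) h
    refine ⟨‖m - 1‖, ?_, fun g hg h1 => hmin _ (hmem g hg h1)⟩
    rw [norm_pos_iff, sub_ne_zero]
    rw [hs, Finset.mem_erase] at hm
    exact hm.1

end Pool.Agent.MPabcfcd
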