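import Pool.Agent.Lib.MP_abcfcd_nt.L.LTop
import Pool.Agent.Lib.MP_abcfcd_nt.Exp

/-!
# Functions on the adelic group with small support modulo `L`

PROOF. `continuous_bump`: the set `{g | finP g ∈ LL}` is open and closed, on it the function is
continuous. `supp_bump`: the support is contained in the compact set `isCompact_inf`. `bump_left`:
for `l ∈ LL`: `U7.map infAQ l = 1`, `finP (l⁻¹ g) = l⁻¹ finP g` (`finP_mul`, `finP_of_inf`),
`chi_mul`.
`bump_symm`: `chi (finP g⁻¹)⁻¹ = chi (finP g)`, its conjugate is `(chi (finP g))⁻¹` (`‖chi‖ = 1`).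
`exists_b`: for a neighbourhood `U₀` of `1` in `U7 ℝ` (a locally compact Hausdorff group, closed in
`M7 (E7 ℝ)`) there is a continuous `b ≥ 0` with compact support in `U₀`, `b 1 = 1`,
`b g⁻¹ = b g` (Urysohn: `exists_continuous_one_of_compact_subset_open`-type lemma, and symmetrise:
`b g * b g⁻¹`). `bumps_LL`: given a neighbourhood `U` of `1` in `U7 AQ`, the set
`{a : U7 ℝ | mk2 a 1 ∈ U}` is a neighbourhood of `1` in `U7 ℝ` (`continuous_mk2`); take `b` for it.
If
`bump b g ≠ 0` then `g = infP g * finP g` with `infP g = mk2 a 1 ∈ U` and `finP g ∈ LL`, and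
`bump b g = b a (chi (finP g))⁻¹` with `b a ≥ 0`.
-/

set_option autoImplicit false

open Matrix MeasureTheory Topology
open scoped ENNReal NNReal ComplexConjugate RestrictedProduct

namespace Pool.Agent.MPabcfcd

open Classical in
/-- The function `b(g_∞) chi(g_f)⁻¹`, supported on the elements with finite part in `L`. -/
noncomputable def bump (b : U7 ℝ → ℝ) (g : U7 AQ) : ℂ :=
  if finP g ∈ LL then (b (U7.map infAQ g) : ℂ) * ((chi (finP g) : Circle) : ℂ)⁻¹ else 0

private theorem bu_pos (b : U7 ℝ → ℝ) {g : U7 AQ} (h : finP g ∈ LL) :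
    bump b g = (b (U7.map infAQ g) : ℂ) * ((chi (finP g) : Circle) : ℂ)⁻¹ := by
  unfold bump
  rw [if_pos h]

private theorem bu_neg (b : U7 ℝ → ℝ) {g : U7 AQ} (h : finP g ∉ LL) : bump b g = 0 := by
  unfold bump
  rw [if_neg h]

theorem continuous_bump {b : U7 ℝ → ℝ} (hb : Continuous b) : Continuous (bump b) := by
  classical
  have h1 : Continuous fun g : U7 AQ =>
      (b (U7.map infAQ g) : ℂ) * ((chi (finP g) : Circle) : ℂ)⁻¹ := by
    refine (Complex.continuous_ofReal.comp
      (hb.comp (U7.continuous_map _ continuous_infAQ))).mul (Continuous.inv₀ ?_ ?_)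
    · exact continuous_subtype_val.comp (continuous_chi.comp continuous_finP)
    · intro g
      exact Circle.coe_ne_zero _
  have h2 : IsClopen {g : U7 AQ | finP g ∈ LL} := ⟨isClosed_fin, isOpen_fin⟩
  have h3 : ∀ x, ContinuousAt (bump b) x := by
    intro x
    by_cases hx : finP x ∈ LL
    · refine h1.continuousAt.congr ?_
      filter_upwards [isOpen_fin.mem_nhds hx] with y hy
      exact (bu_pos b hy).symm
    · have h4 : {g : U7 AQ | finP g ∈ LL}ᶜ ∈ 𝓝 x := isClosed_fin.isOpen_compl.mem_nhds hx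
      refine (continuousAt_const (y := (0 : ℂ))).congr ?_
      filter_upwards [h4] with y hy
      exact (bu_neg b hy).symm
  exact continuous_iff_continuousAt.2 h3

theorem supp_bump {b : U7 ℝ → ℝ} (hb : HasCompactSupport b) : HasCompactSupport (bump b) := by
  refine HasCompactSupport.intro (isCompact_inf hb) fun g hg => ?_
  by_cases h : finP g ∈ LL
  · have h1 : U7.map infAQ g ∉ tsupport b := fun h2 => hg ⟨h2, h⟩
    rw [bu_pos b h, image_eq_zero_of_notMem_tsupport h1, Complex.ofReal_zero, zero_mul]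
  · exact bu_neg b h

private theorem bu_finL {l : U7 AQ} (hl : l ∈ LL) : finP l = l := finP_of_inf hl.1

theorem bump_left (b : U7 ℝ → ℝ) {l : U7 AQ} (hl : l ∈ LL) (g : U7 AQ) :
    bump b (l⁻¹ * g) = (chi l : ℂ) * bump b g := by
  have h1 : finP (l⁻¹ * g) = l⁻¹ * finP g := by
    rw [finP_mul, bu_finL (inv_mem_LL hl)]
  have h2 : U7.map infAQ (l⁻¹ * g) = U7.map infAQ g := by
    rw [map_mul, map_inv, hl.1, inv_one, one_mul]
  by_cases h : finP g ∈ LL
  · have h3 : finP (l⁻¹ * g) ∈ LL := by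
      rw [h1]
      exact mul_mem_LL (inv_mem_LL hl) h
    rw [bu_pos b h3, bu_pos b h, h2, h1, chi_mul (inv_mem_LL hl) h, chi_inv hl, Circle.coe_mul,
      Circle.coe_inv, mul_inv, inv_inv]
    ring
  · have h3 : finP (l⁻¹ * g) ∉ LL := by
      intro h4
      rw [h1] at h4
      have h5 := mul_mem_LL hl h4
      rw [mul_inv_cancel_left] at h5
      exact h h5
    rw [bu_neg b h3, bu_neg b h, mul_zero]

theorem bump_right (b : U7 ℝ → ℝ) {l : U7 AQ} (hl : l ∈ LL) (g : U7 AQ) :
    bump b (g * l) = ((chi l : Circle) : ℂ)⁻¹ * bump b g := by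
  have h1 : finP (g * l) = finP g * l := by
    rw [finP_mul, bu_finL hl]
  have h2 : U7.map infAQ (g * l) = U7.map infAQ g := by
    rw [map_mul, hl.1, mul_one]
  by_cases h : finP g ∈ LL
  · have h3 : finP (g * l) ∈ LL := by
      rw [h1]
      exact mul_mem_LL h hl
    rw [bu_pos b h3, bu_pos b h, h2, h1, chi_mul h hl, Circle.coe_mul, mul_inv]
    ring
  · have h3 : finP (g * l) ∉ LL := by
      intro h4
      rw [h1] at h4
      have h5 := mul_mem_LL h4 (inv_mem_LL hl)
      rw [mul_inv_cancel_right] at h5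
      exact h h5
    rw [bu_neg b h3, bu_neg b h, mul_zero]

theorem bump_symm {b : U7 ℝ → ℝ} (hb : ∀ g, b g⁻¹ = b g) (g : U7 AQ) :
    conj (bump b g⁻¹) = bump b g := by
  have h1 : U7.map infAQ g⁻¹ = (U7.map infAQ g)⁻¹ := map_inv _ _
  by_cases h : finP g ∈ LL
  · have h3 : finP g⁻¹ ∈ LL := by
      rw [finP_inv]
      exact inv_mem_LL h
    rw [bu_pos b h3, bu_pos b h, h1, hb, finP_inv, chi_inv h, Circle.coe_inv, inv_inv, map_mul,
      Complex.conj_ofReal, ← Circle.coe_inv_eq_conj, Circle.coe_inv]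
  · have h3 : finP g⁻¹ ∉ LL := by
      intro h4
      rw [finP_inv] at h4
      have h5 := inv_mem_LL h4
      rw [inv_inv] at h5
      exact h h5
    rw [bu_neg b h3, bu_neg b h, map_zero]

theorem exists_b {U₀ : Set (U7 ℝ)} (hU : U₀ ∈ 𝓝 (1 : U7 ℝ)) : ∃ b : U7 ℝ → ℝ, Continuous b ∧
    HasCompactSupport b ∧ (∀ g, 0 ≤ b g) ∧ (∀ g, b g ≠ 0 → g ∈ U₀) ∧ b 1 = 1 ∧
    ∀ g, b g⁻¹ = b g := by
  have h1 : Disjoint ({1} : Set (U7 ℝ)) (interior U₀)ᶜ := by
    rw [Set.disjoint_compl_right_iff_subset, Set.singleton_subset_iff]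
    exact mem_interior_iff_mem_nhds.2 hU
  obtain ⟨f, hf1, hf0, hfc, hf⟩ := exists_continuous_one_zero_of_isCompact
    (isCompact_singleton (x := (1 : U7 ℝ))) isOpen_interior.isClosed_compl h1
  refine ⟨fun g => f g * f g⁻¹, f.continuous.mul (f.continuous.comp continuous_inv), ?_,
    fun g => mul_nonneg (hf g).1 (hf g⁻¹).1, fun g hg => ?_, ?_, fun g => ?_⟩
  · exact HasCompactSupport.mul_right hfc
  · by_contra h
    have h2 : g ∈ (interior U₀)ᶜ := fun h3 => h (interior_subset h3)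
    have h4 : f g = 0 := hf0 h2
    exact hg (by change f g * f g⁻¹ = 0; rw [h4, zero_mul])
  · have h2 : f 1 = 1 := hf1 rfl
    change f 1 * f 1⁻¹ = 1
    rw [inv_one, h2, mul_one]
  · change f g⁻¹ * f g⁻¹⁻¹ = f g * f g⁻¹
    rw [inv_inv, mul_comm]

theorem bumps_LL : Har.Bumps LL (fun l => (chi l : ℂ)) := by
  intro U hU
  have hc : Continuous fun a : U7 ℝ => mk2 a (1 : U7 Af) :=
    continuous_mk2.comp (continuous_id.prodMk continuous_const)
  have h1 : mk2 (1 : U7 ℝ) (1 : U7 Af) = 1 := by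
    refine ext_prod ?_ ?_
    · rw [fst_mk2, map_one]
    · rw [snd_mk2, map_one]
  have hU0 : (fun a : U7 ℝ => mk2 a (1 : U7 Af)) ⁻¹' U ∈ 𝓝 (1 : U7 ℝ) := by
    refine hc.continuousAt.preimage_mem_nhds ?_
    rw [h1]
    exact hU
  obtain ⟨b, hb, hbc, hb0, hbU, hb1, hbs⟩ := exists_b hU0
  refine ⟨bump b, continuous_bump hb, supp_bump hbc, ?_, bump_symm hbs,
    fun l hl g => bump_left b hl g, fun g hg => ?_⟩
  · intro h
    have h2 : bump b 1 = 0 := by
      rw [h]
      rfl
    have h3 : finP (1 : U7 AQ) = 1 := finP_of_inf (map_one _)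
    have h4 : finP (1 : U7 AQ) ∈ LL := by
      rw [h3]
      exact one_mem_LL
    rw [bu_pos b h4, h3, chi_one, map_one, hb1, Circle.coe_one, inv_one, mul_one,
      Complex.ofReal_one] at h2
    exact one_ne_zero h2
  · have h2 : finP g ∈ LL := by
      by_contra h
      exact hg (bu_neg b h)
    have h3 := bu_pos b h2
    have h4 : b (U7.map infAQ g) ≠ 0 := by
      intro h
      rw [h, Complex.ofReal_zero, zero_mul] at h3
      exact hg h3
    refine ⟨infP g, hbU _ h4, finP g, h2, (infP_mul_finP g).symm, ?_⟩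
    rw [h3, norm_mul, norm_inv, Circle.norm_coe, inv_one, mul_one, Complex.norm_real,
      Real.norm_of_nonneg (hb0 _)]

end Pool.Agent.MPabcfcd
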