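import Pool.Agent.Lib.MP_abcfcd_nt.L.LL
import Pool.Agent.Lib.MP_abcfcd_nt.Q.Grp

/-!
# Topology of the group `L`

PROOF. See the header of L/LL.lean.
`isCompact_LL`: the set of elements of `U7 AQ` with finite entries integral and
trivial component at infinity is the preimage, under the closed embedding `mat`, of the compact set
`{1} × ∏ ℤ_p` in every coordinate (`E7.homeo`; the compact set `{x : Af | ∀ p, ‖x p‖ ≤ 1}` is the
image of
`∏ ℤ_[p]` under the continuous `RestrictedProduct.structureMap`); the condition at seven is closed.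
`isOpen_fin`: `{g | finP g ∈ LL}` is open: the conditions are open conditions on the finite entries
(`RestrictedProduct.isOpen_forall_mem`, closed balls in `ℚ_[p]` are open). `chi_continuousOn`:
`g ↦ trB (U7.map (evp p7) g)` is continuous, `chi` depends on it only through its class modulo `7
ℤ_7`
(`psi_at7`), so `g ↦ chi (finP g)` is locally constant; `chi (finP g) = chi g`.
-/

set_option autoImplicit false

open Matrix MeasureTheory Topology
open scoped ENNReal NNReal ComplexConjugate RestrictedProduct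

namespace Pool.Agent.MPabcfcd

private theorem lt_re (p : Nat.Primes) (i j : Fin 7) :
    Continuous fun g : U7 AQ => ((U7.map (evp p) g).mat i j).re := by
  have h : Continuous fun g : U7 AQ => (g.mat i j).re :=
    E7.continuous_re.comp (U7.continuous_mat.matrix_elem i j)
  exact (continuous_evp p).comp h

private theorem lt_im (p : Nat.Primes) (i j : Fin 7) :
    Continuous fun g : U7 AQ => ((U7.map (evp p) g).mat i j).im := by
  have h : Continuous fun g : U7 AQ => (g.mat i j).im :=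
    E7.continuous_im.comp (U7.continuous_mat.matrix_elem i j)
  exact (continuous_evp p).comp h

private theorem lt_re1 (i j : Fin 7) :
    Continuous fun g : U7 AQ => (((U7.map (evp p7) g).mat - 1) i j).re := by
  have h : Continuous fun g : U7 AQ => ((U7.map (evp p7) g).mat i j).re -
      ((1 : M7 (E7 ℚ_[p7])) i j).re := (lt_re p7 i j).sub continuous_const
  exact h

private theorem isClosed_LL : IsClosed LL := by
  have h1 : IsClosed {g : U7 AQ | U7.map infAQ g = 1} :=
    isClosed_eq (U7.continuous_map _ continuous_infAQ) continuous_const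
  have h2 : IsClosed {g : U7 AQ | ∀ p : Nat.Primes, ∀ i j : Fin 7,
      ‖((U7.map (evp p) g).mat i j).re‖ ≤ 1 ∧ ‖((U7.map (evp p) g).mat i j).im‖ ≤ 1} := by
    simp only [Set.ofPred_forall, Set.ofPred_and]
    refine isClosed_iInter fun p => isClosed_iInter fun i => isClosed_iInter fun j => ?_
    exact (isClosed_le (lt_re p i j).norm continuous_const).inter
      (isClosed_le (lt_im p i j).norm continuous_const)
  have h3 : IsClosed {g : U7 AQ | ∀ i j : Fin 7,
      ‖(((U7.map (evp p7) g).mat - 1) i j).re‖ ≤ 1 / 7} := by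
    simp only [Set.ofPred_forall]
    refine isClosed_iInter fun i => isClosed_iInter fun j => ?_
    exact isClosed_le (lt_re1 i j).norm continuous_const
  have he : LL = {g : U7 AQ | U7.map infAQ g = 1} ∩ ({g : U7 AQ | ∀ p : Nat.Primes, ∀ i j : Fin 7,
      ‖((U7.map (evp p) g).mat i j).re‖ ≤ 1 ∧ ‖((U7.map (evp p) g).mat i j).im‖ ≤ 1} ∩
      {g : U7 AQ | ∀ i j : Fin 7, ‖(((U7.map (evp p7) g).mat - 1) i j).re‖ ≤ 1 / 7}) := by
    ext g
    constructor
    · rintro ⟨a, b, c⟩
      exact ⟨a, fun p => b p, c.2⟩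
    · rintro ⟨a, b, c⟩
      exact ⟨a, fun p => b p, b p7, c⟩
  rw [he]
  exact h1.inter (h2.inter h3)

private theorem isCompact_slice (c : ℝ) :
    IsCompact {x : AQ | x.1 = c ∧ ∀ p : Nat.Primes, ‖x.2 p‖ ≤ 1} := by
  have h := (isCompact_singleton (x := c)).prod isCompact_int
  exact h

private theorem isCompact_entry (c d : ℝ) :
    IsCompact {z : E7 AQ | (z.re.1 = c ∧ ∀ p : Nat.Primes, ‖z.re.2 p‖ ≤ 1) ∧
      (z.im.1 = d ∧ ∀ p : Nat.Primes, ‖z.im.2 p‖ ≤ 1)} := by
  have h := (isCompact_slice c).prod (isCompact_slice d)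
  have h2 := (E7.homeo AQ).isClosedEmbedding.isCompact_preimage h
  exact h2

private theorem isCompact_mats : IsCompact {m : M7 (E7 AQ) | ∀ i j,
    ((m i j).re.1 = ((1 : M7 (E7 ℝ)) i j).re ∧ ∀ p : Nat.Primes, ‖(m i j).re.2 p‖ ≤ 1) ∧
      ((m i j).im.1 = ((1 : M7 (E7 ℝ)) i j).im ∧ ∀ p : Nat.Primes, ‖(m i j).im.2 p‖ ≤ 1)} := by
  have h : IsCompact (Set.univ.pi fun i : Fin 7 => Set.univ.pi fun j : Fin 7 =>
      {z : E7 AQ | (z.re.1 = ((1 : M7 (E7 ℝ)) i j).re ∧ ∀ p : Nat.Primes, ‖z.re.2 p‖ ≤ 1) ∧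
      (z.im.1 = ((1 : M7 (E7 ℝ)) i j).im ∧ ∀ p : Nat.Primes, ‖z.im.2 p‖ ≤ 1)}) :=
    isCompact_univ_pi fun i => isCompact_univ_pi fun j => isCompact_entry _ _
  have he : {m : M7 (E7 AQ) | ∀ i j,
    ((m i j).re.1 = ((1 : M7 (E7 ℝ)) i j).re ∧ ∀ p : Nat.Primes, ‖(m i j).re.2 p‖ ≤ 1) ∧
      ((m i j).im.1 = ((1 : M7 (E7 ℝ)) i j).im ∧ ∀ p : Nat.Primes, ‖(m i j).im.2 p‖ ≤ 1)} =
      (Set.univ.pi fun i : Fin 7 => Set.univ.pi fun j : Fin 7 =>
      {z : E7 AQ | (z.re.1 = ((1 : M7 (E7 ℝ)) i j).re ∧ ∀ p : Nat.Primes, ‖z.re.2 p‖ ≤ 1) ∧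
      (z.im.1 = ((1 : M7 (E7 ℝ)) i j).im ∧ ∀ p : Nat.Primes, ‖z.im.2 p‖ ≤ 1)}) := by
    ext m
    constructor
    · intro hm i _ j _
      exact hm i j
    · intro hm i j
      exact hm i (Set.mem_univ i) j (Set.mem_univ j)
  rw [he]
  exact h

theorem isCompact_LL : IsCompact LL := by
  refine (U7.isClosedEmbedding_mat.isCompact_preimage isCompact_mats).of_isClosed_subset
    isClosed_LL ?_
  rintro g ⟨h1, h2, -⟩ i j
  have h3 : (U7.map infAQ g).mat i j = (1 : M7 (E7 ℝ)) i j := by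
    rw [h1]
    rfl
  have h4 : (g.mat i j).re.1 = ((1 : M7 (E7 ℝ)) i j).re := by
    rw [← h3]
    rfl
  have h5 : (g.mat i j).im.1 = ((1 : M7 (E7 ℝ)) i j).im := by
    rw [← h3]
    rfl
  exact ⟨⟨h4, fun p => (h2 p i j).1⟩, ⟨h5, fun p => (h2 p i j).2⟩⟩

private theorem fin_iff (g : U7 AQ) : finP g ∈ LL ↔
    (∀ p : Nat.Primes, U7.map (evp p) g ∈ KZ p) ∧ U7.map (evp p7) g ∈ JJ := by
  constructor
  · rintro ⟨-, h2, h3⟩
    refine ⟨fun p => ?_, ?_⟩
    · have h := h2 p
      rwa [evp_finP] at h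
    · rwa [evp_finP] at h3
  · rintro ⟨h2, h3⟩
    refine ⟨inf_finP g, fun p => ?_, ?_⟩
    · rw [evp_finP]
      exact h2 p
    · rw [evp_finP]
      exact h3

theorem isOpen_fin : IsOpen {g : U7 AQ | finP g ∈ LL} := by
  have h1 : IsOpen {g : U7 AQ | ∀ i j : Fin 7,
      (∀ p : Nat.Primes, ‖(g.mat i j).re.2 p‖ ≤ 1) ∧
      (∀ p : Nat.Primes, ‖(g.mat i j).im.2 p‖ ≤ 1)} := by
    have he : {g : U7 AQ | ∀ i j : Fin 7, (∀ p : Nat.Primes, ‖(g.mat i j).re.2 p‖ ≤ 1) ∧
        (∀ p : Nat.Primes, ‖(g.mat i j).im.2 p‖ ≤ 1)} =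
        ⋂ i : Fin 7, ⋂ j : Fin 7, {g : U7 AQ | (∀ p : Nat.Primes, ‖(g.mat i j).re.2 p‖ ≤ 1) ∧
        (∀ p : Nat.Primes, ‖(g.mat i j).im.2 p‖ ≤ 1)} := by
      ext g
      simp only [Set.mem_iInter]
      rfl
    rw [he]
    refine isOpen_iInter_of_finite fun i => isOpen_iInter_of_finite fun j => ?_
    have hr : Continuous fun g : U7 AQ => (g.mat i j).re.2 :=
      continuous_snd.comp (E7.continuous_re.comp (U7.continuous_mat.matrix_elem i j))
    have hi : Continuous fun g : U7 AQ => (g.mat i j).im.2 :=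
      continuous_snd.comp (E7.continuous_im.comp (U7.continuous_mat.matrix_elem i j))
    exact (isOpen_int.preimage hr).inter (isOpen_int.preimage hi)
  have h3 : IsOpen {g : U7 AQ | ∀ i j : Fin 7,
      ‖(((U7.map (evp p7) g).mat - 1) i j).re‖ ≤ 1 / 7} := by
    simp only [Set.ofPred_forall]
    refine isOpen_iInter_of_finite fun i => isOpen_iInter_of_finite fun j => ?_
    have hb : IsOpen (Metric.closedBall (0 : ℚ_[p7]) (1 / 7)) :=
      IsUltrametricDist.isOpen_closedBall _ (by norm_num)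
    have hc := hb.preimage (lt_re1 i j)
    have he : (fun g : U7 AQ => (((U7.map (evp p7) g).mat - 1) i j).re) ⁻¹'
        (Metric.closedBall (0 : ℚ_[p7]) (1 / 7)) =
        {g : U7 AQ | ‖(((U7.map (evp p7) g).mat - 1) i j).re‖ ≤ 1 / 7} := by
      ext g
      exact mem_closedBall_zero_iff
    rw [he] at hc
    exact hc
  have he : {g : U7 AQ | finP g ∈ LL} = {g : U7 AQ | ∀ i j : Fin 7,
      (∀ p : Nat.Primes, ‖(g.mat i j).re.2 p‖ ≤ 1) ∧
      (∀ p : Nat.Primes, ‖(g.mat i j).im.2 p‖ ≤ 1)} ∩ {g : U7 AQ | ∀ i j : Fin 7,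
      ‖(((U7.map (evp p7) g).mat - 1) i j).re‖ ≤ 1 / 7} := by
    ext g
    constructor
    · intro hg
      obtain ⟨a, b⟩ := (fin_iff g).1 hg
      exact ⟨fun i j => ⟨fun p => (a p i j).1, fun p => (a p i j).2⟩, b.2⟩
    · rintro ⟨a, b⟩
      refine (fin_iff g).2 ⟨fun p i j => ⟨(a i j).1 p, (a i j).2 p⟩, fun i j =>
        ⟨(a i j).1 p7, (a i j).2 p7⟩, b⟩
  rw [he]
  exact h1.inter h3

theorem isClosed_fin : IsClosed {g : U7 AQ | finP g ∈ LL} :=
  isClosed_LL.preimage continuous_finP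

private theorem continuous_psi_at7 : Continuous fun x : ℚ_[p7] => psi (at7 x) := by
  rw [continuous_iff_continuousAt]
  intro x
  have h : (fun y : ℚ_[p7] => psi (at7 y)) =ᶠ[𝓝 x] fun _ => psi (at7 x) := by
    filter_upwards [Metric.ball_mem_nhds x one_pos] with y hy
    have h1 : at7 y = at7 x + at7 (y - x) := by
      rw [← at7_add]
      congr 1
      ring
    have h2 : psi (at7 (y - x)) = 1 := by
      rw [psi_at7]
      have h3 : dist y x < 1 := hy
      rw [dist_eq_norm] at h3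
      exact h3.le
    rw [h1, psi_add, h2, mul_one]
  exact (continuousAt_const).congr h.symm

theorem continuous_chi : Continuous chi := by
  have h1 : Continuous fun g : U7 AQ => trB (U7.map (evp p7) g) := by
    unfold trB
    refine continuous_finsetSum _ fun i _ => continuous_finsetSum _ fun j _ => ?_
    exact continuous_const.mul (lt_im p7 j i)
  have h2 : Continuous fun g : U7 AQ => -(trB (U7.map (evp p7) g)) / 7 :=
    h1.neg.div_const 7
  exact continuous_psi_at7.comp h2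

theorem isCompact_inf {C : Set (U7 ℝ)} (hC : IsCompact C) :
    IsCompact {g : U7 AQ | U7.map infAQ g ∈ C ∧ finP g ∈ LL} := by
  have h1 := hC.prod isCompact_LL
  have hf : Continuous fun p : U7 ℝ × U7 AQ => mk2 p.1 (U7.map finAQ p.2) :=
    continuous_mk2.comp (continuous_fst.prodMk
      ((U7.continuous_map _ continuous_finAQ).comp continuous_snd))
  have h2 := h1.image hf
  have he : {g : U7 AQ | U7.map infAQ g ∈ C ∧ finP g ∈ LL} =
      (fun p : U7 ℝ × U7 AQ => mk2 p.1 (U7.map finAQ p.2)) '' (C ×ˢ LL) := by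
    ext g
    constructor
    · rintro ⟨a, b⟩
      refine ⟨(U7.map infAQ g, finP g), ⟨a, b⟩, ?_⟩
      refine ext_prod ?_ ?_
      · rw [fst_mk2]
        rfl
      · rw [snd_mk2]
        exact snd_mk2 _ _
    · rintro ⟨⟨a, l⟩, ⟨ha, hl⟩, rfl⟩
      refine ⟨?_, ?_⟩
      · have h : U7.map infAQ (mk2 a (U7.map finAQ l)) = a := fst_mk2 _ _
        change U7.map infAQ (mk2 a (U7.map finAQ l)) ∈ C
        rw [h]
        exact ha
      · have h : U7.map finAQ (mk2 a (U7.map finAQ l)) = U7.map finAQ l := snd_mk2 _ _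
        have h3 : finP (mk2 a (U7.map finAQ l)) = l := by
          rw [finP, h]
          exact finP_of_inf hl.1
        change finP (mk2 a (U7.map finAQ l)) ∈ LL
        rw [h3]
        exact hl
  rw [he]
  exact h2

end Pool.Agent.MPabcfcd
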