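import Pool.Agent.Lib.MP_abcfcd_nt.Lgrp

/-!
# The adelic group as a product

PROOF. `mk2 a b` has the entries `⟨((a i j).re, (b i j).re), ((a i j).im, (b i j).im)⟩`; all
operations
of `E7 (R × S)` are componentwise, so `mk2` of unitary matrices is unitary (check the two
components of
the identity: the maps `mapM (RingHom.fst R S)`, `mapM (RingHom.snd R S)` are jointly injective).
`finP g` is the element with the component `1` at infinity and the finite components of `g`.
-/

set_option autoImplicit false

open Matrix MeasureTheory Topology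
open scoped ENNReal NNReal ComplexConjugate RestrictedProduct

namespace Pool.Agent.MPabcfcd

private theorem prod_map_star {R S : Type} [CommRing R] [CommRing S] (f : R →+* S)
    (M : M7 (E7 R)) : (Mᴴ).map (E7.map f) = (M.map (E7.map f))ᴴ := by
  refine Matrix.ext fun i j => ?_
  simp [Matrix.conjTranspose_apply, E7.map_star]

private theorem prod_map_J {R S : Type} [CommRing R] [CommRing S] (f : R →+* S) :
    (J7 (E7 R)).map (E7.map f) = J7 (E7 S) := by
  refine Matrix.ext fun i j => ?_
  by_cases h : j = i.rev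
  · simp [J7, h]
  · simp [J7, h]

private theorem prod_map_form {R S : Type} [CommRing R] [CommRing S] (f : R →+* S)
    (M : M7 (E7 R)) : (Mᴴ * J7 (E7 R) * M).map (E7.map f) =
      (M.map (E7.map f))ᴴ * J7 (E7 S) * M.map (E7.map f) := by
  rw [Matrix.map_mul, Matrix.map_mul, prod_map_star, prod_map_J]

section prod

variable {R S : Type} [CommRing R] [CommRing S]

private theorem prod_ext {M N : M7 (E7 (R × S))}
    (h1 : M.map (E7.map (RingHom.fst R S)) = N.map (E7.map (RingHom.fst R S)))
    (h2 : M.map (E7.map (RingHom.snd R S)) = N.map (E7.map (RingHom.snd R S))) : M = N := by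
  refine Matrix.ext fun i j => ?_
  have e1 : E7.map (RingHom.fst R S) (M i j) = E7.map (RingHom.fst R S) (N i j) :=
    congrFun (congrFun h1 i) j
  have e2 : E7.map (RingHom.snd R S) (M i j) = E7.map (RingHom.snd R S) (N i j) :=
    congrFun (congrFun h2 i) j
  have e3 : (M i j).re.1 = (N i j).re.1 := congrArg QuadraticAlgebra.re e1
  have e4 : (M i j).im.1 = (N i j).im.1 := congrArg QuadraticAlgebra.im e1
  have e5 : (M i j).re.2 = (N i j).re.2 := congrArg QuadraticAlgebra.re e2
  have e6 : (M i j).im.2 = (N i j).im.2 := congrArg QuadraticAlgebra.im e2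
  exact QuadraticAlgebra.ext (Prod.ext e3 e5) (Prod.ext e4 e6)

theorem mk2_aux (a : U7 R) (b : U7 S) :
    (Matrix.of fun i j => (⟨((a.mat i j).re, (b.mat i j).re), ((a.mat i j).im, (b.mat i j).im)⟩ :
      E7 (R × S)))ᴴ * J7 (E7 (R × S)) *
    (Matrix.of fun i j => (⟨((a.mat i j).re, (b.mat i j).re), ((a.mat i j).im, (b.mat i j).im)⟩ :
      E7 (R × S))) = J7 (E7 (R × S)) := by
  apply prod_ext
  · rw [prod_map_form, prod_map_J]
    exact a.star_mul_mat
  · rw [prod_map_form, prod_map_J]
    exact b.star_mul_mat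

/-- The element of the group over a product of rings with given components. -/
def mk2 (a : U7 R) (b : U7 S) : U7 (R × S) := ⟨_, mk2_aux a b⟩

theorem fst_mk2 (a : U7 R) (b : U7 S) : U7.map (RingHom.fst R S) (mk2 a b) = a :=
  U7.ext rfl

theorem snd_mk2 (a : U7 R) (b : U7 S) : U7.map (RingHom.snd R S) (mk2 a b) = b :=
  U7.ext rfl

theorem ext_prod {g h : U7 (R × S)} (h1 : U7.map (RingHom.fst R S) g = U7.map (RingHom.fst R S) h)
    (h2 : U7.map (RingHom.snd R S) g = U7.map (RingHom.snd R S) h) : g = h :=
  U7.ext (prod_ext (congrArg U7.mat h1) (congrArg U7.mat h2))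

theorem mk2_mul (a a' : U7 R) (b b' : U7 S) : mk2 (a * a') (b * b') = mk2 a b * mk2 a' b' := by
  apply ext_prod
  · rw [map_mul, fst_mk2, fst_mk2, fst_mk2]
  · rw [map_mul, snd_mk2, snd_mk2, snd_mk2]

theorem continuous_mk2 [TopologicalSpace R] [TopologicalSpace S] :
    Continuous fun p : U7 R × U7 S => mk2 p.1 p.2 := by
  refine U7.isEmbedding_mat.continuous_iff.2 (continuous_matrix fun i j => ?_)
  have h1 : Continuous fun p : U7 R × U7 S => p.1.mat i j :=
    (U7.continuous_mat.comp continuous_fst).matrix_elem i j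
  have h2 : Continuous fun p : U7 R × U7 S => p.2.mat i j :=
    (U7.continuous_mat.comp continuous_snd).matrix_elem i j
  exact E7.continuous_mk
    ((E7.continuous_re.comp h1).prodMk (E7.continuous_re.comp h2))
    ((E7.continuous_im.comp h1).prodMk (E7.continuous_im.comp h2))

end prod

theorem continuous_U7map {R S : Type} [CommRing R] [CommRing S] [TopologicalSpace R]
    [TopologicalSpace S] (f : R →+* S) (hf : Continuous f) : Continuous (U7.map f) := by
  refine U7.isEmbedding_mat.continuous_iff.2 (continuous_matrix fun i j => ?_)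
  have h1 : Continuous fun g : U7 R => g.mat i j := U7.continuous_mat.matrix_elem i j
  exact E7.continuous_mk (hf.comp (E7.continuous_re.comp h1)) (hf.comp (E7.continuous_im.comp h1))

private theorem prod_map_comp {R S T : Type} [CommRing R] [CommRing S] [CommRing T] (f : R →+* S)
    (f' : S →+* T) (g : U7 R) : U7.map (f'.comp f) g = U7.map f' (U7.map f g) :=
  U7.ext rfl

/-- The finite part of an element of the adelic group. -/
noncomputable def finP (g : U7 AQ) : U7 AQ := mk2 (1 : U7 ℝ) (U7.map finAQ g)

/-- The part at infinity of an element of the adelic group. -/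
noncomputable def infP (g : U7 AQ) : U7 AQ := mk2 (U7.map infAQ g) (1 : U7 Af)

private theorem prod_inf_finP (g : U7 AQ) : U7.map (RingHom.fst ℝ Af) (finP g) = 1 :=
  fst_mk2 _ _

private theorem prod_fin_finP (g : U7 AQ) :
    U7.map (RingHom.snd ℝ Af) (finP g) = U7.map (RingHom.snd ℝ Af) g :=
  snd_mk2 _ _

private theorem prod_inf_infP (g : U7 AQ) :
    U7.map (RingHom.fst ℝ Af) (infP g) = U7.map (RingHom.fst ℝ Af) g :=
  fst_mk2 _ _

private theorem prod_fin_infP (g : U7 AQ) : U7.map (RingHom.snd ℝ Af) (infP g) = 1 :=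
  snd_mk2 _ _

theorem infP_mul_finP (g : U7 AQ) : infP g * finP g = g := by
  apply ext_prod
  · rw [map_mul, prod_inf_infP, prod_inf_finP, mul_one]
  · rw [map_mul, prod_fin_infP, prod_fin_finP, one_mul]

theorem finP_mul_infP (g : U7 AQ) : finP g * infP g = g := by
  apply ext_prod
  · rw [map_mul, prod_inf_infP, prod_inf_finP, one_mul]
  · rw [map_mul, prod_fin_infP, prod_fin_finP, mul_one]

theorem finP_mul (g h : U7 AQ) : finP (g * h) = finP g * finP h := by
  apply ext_prod
  · rw [map_mul, prod_inf_finP, prod_inf_finP, prod_inf_finP, one_mul]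
  · rw [map_mul, prod_fin_finP, prod_fin_finP, prod_fin_finP, map_mul]

theorem finP_inv (g : U7 AQ) : finP g⁻¹ = (finP g)⁻¹ := by
  apply ext_prod
  · rw [map_inv, prod_inf_finP, prod_inf_finP, inv_one]
  · rw [map_inv, prod_fin_finP, prod_fin_finP, map_inv]

theorem inf_finP (g : U7 AQ) : U7.map infAQ (finP g) = 1 :=
  prod_inf_finP g

theorem evp_finP (p : Nat.Primes) (g : U7 AQ) :
    U7.map (evp p) (finP g) = U7.map (evp p) g := by
  have h1 : ∀ g : U7 AQ, U7.map (evp p) g =
      U7.map (RestrictedProduct.evalRingHom (fun p : Nat.Primes => ℚ_[p]) p)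
        (U7.map (RingHom.snd ℝ Af) g) := fun g => prod_map_comp finAQ _ g
  rw [h1, h1, prod_fin_finP]

theorem finP_of_inf {g : U7 AQ} (h : U7.map infAQ g = 1) : finP g = g := by
  apply ext_prod
  · rw [prod_inf_finP]
    exact h.symm
  · rw [prod_fin_finP]

theorem continuous_finP : Continuous finP :=
  continuous_mk2.comp (continuous_const.prodMk (continuous_U7map finAQ continuous_snd))

private theorem prod_ext_fin {M N : M7 (E7 Af)}
    (h : ∀ p : Nat.Primes,
      M.map (E7.map (RestrictedProduct.evalRingHom (fun p : Nat.Primes => ℚ_[p]) p)) =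
      N.map (E7.map (RestrictedProduct.evalRingHom (fun p : Nat.Primes => ℚ_[p]) p))) :
    M = N := by
  refine Matrix.ext fun i j => ?_
  have e : ∀ p : Nat.Primes,
      E7.map (RestrictedProduct.evalRingHom (fun p : Nat.Primes => ℚ_[p]) p) (M i j) =
      E7.map (RestrictedProduct.evalRingHom (fun p : Nat.Primes => ℚ_[p]) p) (N i j) := fun p =>
    congrFun (congrFun (h p) i) j
  refine QuadraticAlgebra.ext (RestrictedProduct.ext _ _ fun p => ?_)
    (RestrictedProduct.ext _ _ fun p => ?_)
  · exact congrArg QuadraticAlgebra.re (e p)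
  · exact congrArg QuadraticAlgebra.im (e p)

/-- An element of the adelic group is determined by its components. -/
theorem ext_comp {g h : U7 AQ} (h1 : U7.map infAQ g = U7.map infAQ h)
    (h2 : ∀ p, U7.map (evp p) g = U7.map (evp p) h) : g = h := by
  refine ext_prod h1 (U7.ext (prod_ext_fin fun p => ?_))
  exact congrArg U7.mat (h2 p)

open Classical in
/-- Change the component at seven of a finite adele. -/
private noncomputable def prodUpd (x : ℚ_[p7]) (y : Af) : Af :=
  ⟨Function.update (fun p => y p) p7 x, by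
    have h1 : ∀ᶠ p : Nat.Primes in Filter.cofinite, p ≠ p7 := by
      rw [Filter.eventually_cofinite]
      refine (Set.finite_singleton p7).subset fun p hp => ?_
      exact not_not.1 hp
    filter_upwards [h1, y.2] with p hp hy
    rw [Function.update_of_ne hp]
    exact hy⟩

private theorem prodUpd_self (x : ℚ_[p7]) (y : Af) : prodUpd x y p7 = x := by
  classical
  change Function.update (β := fun p : Nat.Primes => ℚ_[p]) (fun p => y p) p7 x p7 = x
  rw [Function.update_self]

private theorem prodUpd_ne (x : ℚ_[p7]) (y : Af) {p : Nat.Primes} (hp : p ≠ p7) :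
    prodUpd x y p = y p := by
  classical
  change Function.update (β := fun p : Nat.Primes => ℚ_[p]) (fun p => y p) p7 x p = y p
  rw [Function.update_of_ne hp]

/-- The element of the adelic group with the component `u` at seven and `1` at the other places. -/
theorem exists_at7 (u : U7 ℚ_[p7]) : ∃ g : U7 AQ, U7.map infAQ g = 1 ∧
    U7.map (evp p7) g = u ∧ ∀ p, p ≠ p7 → U7.map (evp p) g = 1 := by
  obtain ⟨M, hM⟩ : ∃ M : M7 (E7 Af), ∀ i j, M i j =
      ⟨prodUpd (u.mat i j).re ((1 : M7 (E7 Af)) i j).re,
        prodUpd (u.mat i j).im ((1 : M7 (E7 Af)) i j).im⟩ :=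
    ⟨Matrix.of fun i j => _, fun _ _ => rfl⟩
  have h7 : M.map (E7.map (RestrictedProduct.evalRingHom (fun p : Nat.Primes => ℚ_[p]) p7)) =
      u.mat := by
    refine Matrix.ext fun i j => ?_
    rw [Matrix.map_apply, hM]
    exact QuadraticAlgebra.ext (prodUpd_self (u.mat i j).re ((1 : M7 (E7 Af)) i j).re)
      (prodUpd_self (u.mat i j).im ((1 : M7 (E7 Af)) i j).im)
  have hp : ∀ p : Nat.Primes, p ≠ p7 →
      M.map (E7.map (RestrictedProduct.evalRingHom (fun p : Nat.Primes => ℚ_[p]) p)) = 1 := by
    intro p hp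
    have h1 : M.map (E7.map (RestrictedProduct.evalRingHom (fun p : Nat.Primes => ℚ_[p]) p)) =
        (1 : M7 (E7 Af)).map
          (E7.map (RestrictedProduct.evalRingHom (fun p : Nat.Primes => ℚ_[p]) p)) := by
      refine Matrix.ext fun i j => ?_
      rw [Matrix.map_apply, Matrix.map_apply, hM]
      exact QuadraticAlgebra.ext (prodUpd_ne (u.mat i j).re ((1 : M7 (E7 Af)) i j).re hp)
        (prodUpd_ne (u.mat i j).im ((1 : M7 (E7 Af)) i j).im hp)
    rw [h1, Matrix.map_one _ (map_zero _) (map_one _)]
  have hU : Mᴴ * J7 (E7 Af) * M = J7 (E7 Af) := by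
    refine prod_ext_fin fun p => ?_
    rw [prod_map_form, prod_map_J]
    by_cases h : p = p7
    · subst h
      rw [h7]
      exact u.star_mul_mat
    · rw [hp p h, Matrix.conjTranspose_one, Matrix.one_mul, Matrix.mul_one]
  refine ⟨mk2 1 ⟨M, hU⟩, fst_mk2 _ _, U7.ext h7, fun p h => U7.ext (hp p h)⟩

end Pool.Agent.MPabcfcd
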